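import Pool.Agent.W91.BH.Stm2

/-! Project BH, part GEO. -/

set_option autoImplicit false

open MeasureTheory
open scoped ENNReal ContDiff

namespace Pool.Agent.W725.BH

open Pool.Agent.W91.BH

theorem level_le (n : ℕ) (hn : 0 < n) (Q P : Idx n) (h : cube n Q ⊆ cube n P) : P.1 ≤ Q.1 := by
  by_contra hlt
  push Not at hlt
  obtain ⟨k, z⟩ := Q
  obtain ⟨l, w⟩ := P
  simp only at hlt
  have h2k : (0 : ℝ) < 2 ^ k := by positivity
  have h2l : (0 : ℝ) < 2 ^ l := by positivity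
  have hkl : (2 : ℝ) ^ k / 2 ^ l < 1 := by
    rw [div_lt_one h2l]
    exact pow_lt_pow_right₀ (by norm_num) hlt
  have ha : (WithLp.toLp 2 (fun i => (z i : ℝ) / 2 ^ k) : E n) ∈ cube n (k, z) := by
    intro i
    show ⌊(2 : ℝ) ^ k * ((z i : ℝ) / 2 ^ k)⌋ = z i
    rw [mul_div_cancel₀ _ h2k.ne']
    exact Int.floor_intCast _
  have hb : (WithLp.toLp 2 (fun i => (z i : ℝ) / 2 ^ k + 1 / 2 ^ l) : E n) ∈ cube n (k, z) := by
    intro i
    show ⌊(2 : ℝ) ^ k * ((z i : ℝ) / 2 ^ k + 1 / 2 ^ l)⌋ = z i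
    have e : (2 : ℝ) ^ k * ((z i : ℝ) / 2 ^ k + 1 / 2 ^ l) = (z i : ℝ) + 2 ^ k / 2 ^ l := by
      field_simp
    rw [e, Int.floor_eq_iff]
    constructor
    · have : (0 : ℝ) ≤ 2 ^ k / 2 ^ l := by positivity
      linarith
    · linarith
  have h1 := h ha ⟨0, hn⟩
  have h2 := h hb ⟨0, hn⟩
  have h1' : ⌊(2 : ℝ) ^ l * ((z ⟨0, hn⟩ : ℝ) / 2 ^ k)⌋ = w ⟨0, hn⟩ := h1
  have h2' : ⌊(2 : ℝ) ^ l * ((z ⟨0, hn⟩ : ℝ) / 2 ^ k + 1 / 2 ^ l)⌋ = w ⟨0, hn⟩ := h2
  have e : (2 : ℝ) ^ l * ((z ⟨0, hn⟩ : ℝ) / 2 ^ k + 1 / 2 ^ l) =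
      (2 : ℝ) ^ l * ((z ⟨0, hn⟩ : ℝ) / 2 ^ k) + 1 := by
    field_simp
  rw [e, Int.floor_add_one] at h2'
  omega

theorem pw_bound (m n k j : ℕ) (p C' : ℝ) (hp : 0 < p) (hm : 2 * (n : ℝ) ≤ p * m)
    (hC' : 1 ≤ C') : ∃ x : ℝ, 0 < x ∧ x ≤ 1 ∧ pw m k j ^ p ≤ x ^ n * x ^ n ∧
      x * rad k j C' ≤ 2 * C' * (1 / 2) ^ k := by
  unfold pw rad
  have hk : (0 : ℝ) < (1 / 2) ^ k := by positivity
  have hj : (0 : ℝ) < (1 / 2) ^ j := by positivity
  have hC0 : 0 < C' := by linarith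
  split_ifs with h
  · refine ⟨1, one_pos, le_refl _, by simp, ?_⟩
    have h1 : ((1 : ℝ) / 2) ^ j ≤ (1 / 2) ^ k :=
      pow_le_pow_of_le_one (by norm_num) (by norm_num) h
    nlinarith
  · push Not at h
    have hx0 : (0 : ℝ) < (1 / 2) ^ (k - j) := by positivity
    have hx1 : ((1 : ℝ) / 2) ^ (k - j) ≤ 1 := pow_le_one₀ (by norm_num) (by norm_num)
    refine ⟨(1 / 2) ^ (k - j), hx0, hx1, ?_, ?_⟩
    · rw [← Real.rpow_natCast ((1 / 2 : ℝ) ^ (k - j)) m, ← Real.rpow_mul hx0.le, ← pow_add,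
        ← Real.rpow_natCast ((1 / 2 : ℝ) ^ (k - j)) (n + n)]
      apply Real.rpow_le_rpow_of_exponent_ge hx0 hx1
      push_cast
      linarith
    · have e : ((1 : ℝ) / 2) ^ (k - j) * (1 / 2) ^ j = (1 / 2) ^ k := by
        rw [← pow_add]
        congr 1
        omega
      have h2 : ((1 : ℝ) / 2) ^ (k - j) * (1 / 2) ^ k ≤ (1 / 2) ^ k := by nlinarith
      calc ((1 : ℝ) / 2) ^ (k - j) * (C' * ((1 / 2) ^ k + (1 / 2) ^ j))
          = C' * (((1 : ℝ) / 2) ^ (k - j) * (1 / 2) ^ k + ((1 : ℝ) / 2) ^ (k - j) * (1 / 2) ^ j) := by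
            ring
        _ ≤ C' * ((1 / 2) ^ k + (1 / 2) ^ k) := by
            apply mul_le_mul_of_nonneg_left _ hC0.le
            rw [e]
            linarith
        _ = 2 * C' * (1 / 2) ^ k := by ring

theorem core (m n k j l : ℕ) (p e B C' : ℝ) (hp : 0 < p) (hm : 2 * (n : ℝ) ≤ p * m)
    (he : 0 ≤ e) (hen : e ≤ n) (hB : 0 < B) (hC' : 1 ≤ C') (hl : l ≤ k) :
    pw m k j ^ p * (((2 : ℝ) ^ k * rad k j C') ^ n * (B * (1 / 2) ^ l + rad k j C') ^ e) ≤
      (2 * C') ^ n * (B + 2 * C') ^ e * ((1 / 2 : ℝ) ^ l) ^ e := by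
  obtain ⟨x, hx0, hx1, hpw, hxr⟩ := pw_bound m n k j p C' hp hm hC'
  have hC0 : 0 < C' := by linarith
  have hr : 0 < rad k j C' := by
    unfold rad
    positivity
  have hk : (0 : ℝ) < (1 / 2) ^ k := by positivity
  have hlp : (0 : ℝ) < (1 / 2) ^ l := by positivity
  have hkl : ((1 : ℝ) / 2) ^ k ≤ (1 / 2) ^ l :=
    pow_le_pow_of_le_one (by norm_num) (by norm_num) hl
  have hb : 0 < B * (1 / 2) ^ l + rad k j C' := by positivity
  have h1 : (x * ((2 : ℝ) ^ k * rad k j C')) ^ n ≤ (2 * C') ^ n := by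
    apply pow_le_pow_left₀ (by positivity)
    have e2 : (2 : ℝ) ^ k * (1 / 2) ^ k = 1 := by
      rw [← mul_pow]
      norm_num
    calc x * ((2 : ℝ) ^ k * rad k j C') = 2 ^ k * (x * rad k j C') := by ring
      _ ≤ 2 ^ k * (2 * C' * (1 / 2) ^ k) := by
          apply mul_le_mul_of_nonneg_left hxr (by positivity)
      _ = 2 * C' * (2 ^ k * (1 / 2) ^ k) := by ring
      _ = 2 * C' := by rw [e2, mul_one]
  have h2 : x ^ n ≤ x ^ e := by
    rw [← Real.rpow_natCast]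
    exact Real.rpow_le_rpow_of_exponent_ge hx0 hx1 hen
  have h3 : x ^ e * (B * (1 / 2) ^ l + rad k j C') ^ e ≤
      (B + 2 * C') ^ e * ((1 / 2 : ℝ) ^ l) ^ e := by
    rw [← Real.mul_rpow hx0.le hb.le, ← Real.mul_rpow (by positivity) hlp.le]
    apply Real.rpow_le_rpow (by positivity) _ he
    have h4 : x * (B * (1 / 2) ^ l) ≤ B * (1 / 2) ^ l := by
      have : 0 < B * (1 / 2 : ℝ) ^ l := by positivity
      nlinarith
    have h5 : 2 * C' * (1 / 2 : ℝ) ^ k ≤ 2 * C' * (1 / 2) ^ l :=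
      mul_le_mul_of_nonneg_left hkl (by positivity)
    nlinarith
  have hbe : 0 ≤ (B * (1 / 2) ^ l + rad k j C') ^ e := Real.rpow_nonneg hb.le _
  calc pw m k j ^ p * (((2 : ℝ) ^ k * rad k j C') ^ n * (B * (1 / 2) ^ l + rad k j C') ^ e)
      ≤ (x ^ n * x ^ n) * (((2 : ℝ) ^ k * rad k j C') ^ n *
          (B * (1 / 2) ^ l + rad k j C') ^ e) := by
        apply mul_le_mul_of_nonneg_right hpw
        positivity
    _ = (x * ((2 : ℝ) ^ k * rad k j C')) ^ n *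
          (x ^ n * (B * (1 / 2) ^ l + rad k j C') ^ e) := by
        rw [mul_pow x]
        ring
    _ ≤ (2 * C') ^ n * ((B + 2 * C') ^ e * ((1 / 2 : ℝ) ^ l) ^ e) := by
        apply mul_le_mul h1 _ (by positivity) (by positivity)
        exact (mul_le_mul_of_nonneg_right h2 hbe).trans h3
    _ = (2 * C') ^ n * (B + 2 * C') ^ e * ((1 / 2 : ℝ) ^ l) ^ e := by ring

open Classical in
theorem geo : S_OVL → S_GEO := by
  intro hO n N α p e C C' K μ hn hα hp he hen hne hN hG hC'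
  obtain ⟨B, hB, hO⟩ := hO n
  obtain ⟨hμ, -, hC, hgr⟩ := hG
  have hC0 : 0 < C' := by linarith
  have hm : 2 * (n : ℝ) ≤ p * ((n + N + 1 : ℕ) : ℝ) := by
    push_cast
    exact hN
  set w : ℝ := (2 : ℝ) ^ (-(α * p)) with hw
  have hw0 : 0 < w := Real.rpow_pos_of_pos two_pos _
  have hw1 : w < 1 := by
    rw [hw]
    apply Real.rpow_lt_one_of_one_lt_of_neg (by norm_num)
    have := mul_pos hα hp
    linarith
  have hwk : ∀ k : ℕ, (2 : ℝ) ^ (-((k : ℝ) * (α * p))) = w ^ k := by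
    intro k
    rw [hw, ← Real.rpow_natCast, ← Real.rpow_mul (by norm_num)]
    congr 1
    ring
  set A1 : ℝ := B * C * ((2 * C') ^ n * (B + 2 * C') ^ e) with hA1
  have hA1p : 0 < A1 := by positivity
  refine ⟨A1 / (1 - w), div_pos hA1p (by linarith), ?_⟩
  intro j G P hP
  set F := G.filter (fun Q => cube n Q ⊆ cube n P) with hF
  set g : Idx n → ℝ := fun Q => (2 : ℝ) ^ (-((Q.1 : ℝ) * (α * p))) * ((pw (n + N + 1) Q.1 j) ^ p *
        μ.real (Metric.closedBall (ctr n Q) (rad Q.1 j C'))) with hg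
  have hlev : ∀ k : ℕ, P.1 ≤ k → ∑ Q ∈ F.filter (fun Q => Q.1 = k), g Q ≤
      A1 * ((1 / 2 : ℝ) ^ P.1) ^ e * w ^ k := by
    intro k hk
    have hset : F.filter (fun Q => Q.1 = k) =
        G.filter (fun Q => Q.1 = k ∧ cube n Q ⊆ cube n P) := by
      rw [hF, Finset.filter_filter]
      apply Finset.filter_congr
      intro Q _
      exact and_comm
    have hr : (1 / 2 : ℝ) ^ k ≤ rad k j C' := by
      unfold rad
      have h1 : (0 : ℝ) < (1 / 2) ^ k := by positivity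
      have h2 : (0 : ℝ) < (1 / 2) ^ j := by positivity
      nlinarith
    have hr0 : 0 < rad k j C' := lt_of_lt_of_le (by positivity) hr
    have h1 := hO G P k (rad k j C') μ hr hk
    have hpw0 : 0 ≤ pw (n + N + 1) k j ^ p := by
      apply Real.rpow_nonneg
      unfold pw
      split_ifs
      · norm_num
      · positivity
    have hP1 : μ.real (Metric.closedBall (ctr n P) (B * (1 / 2) ^ P.1 + rad k j C')) ≤
        C * (B * (1 / 2) ^ P.1 + rad k j C') ^ e := by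
      have h2 := hgr (ctr n P) (B * (1 / 2) ^ P.1 + rad k j C') (by positivity)
      exact ENNReal.toReal_le_of_le_ofReal (by positivity) h2
    calc ∑ Q ∈ F.filter (fun Q => Q.1 = k), g Q
        = ∑ Q ∈ F.filter (fun Q => Q.1 = k), w ^ k * (pw (n + N + 1) k j ^ p *
            μ.real (Metric.closedBall (ctr n Q) (rad k j C'))) := by
          apply Finset.sum_congr rfl
          intro Q hQ
          have hQk := (Finset.mem_filter.1 hQ).2
          simp only [hg]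
          rw [hQk, hwk]
      _ = w ^ k * (pw (n + N + 1) k j ^ p * ∑ Q ∈ F.filter (fun Q => Q.1 = k),
            μ.real (Metric.closedBall (ctr n Q) (rad k j C'))) := by
          rw [Finset.mul_sum, Finset.mul_sum]
      _ ≤ w ^ k * (pw (n + N + 1) k j ^ p * (B * ((2 : ℝ) ^ k * rad k j C') ^ n *
            (C * (B * (1 / 2) ^ P.1 + rad k j C') ^ e))) := by
          apply mul_le_mul_of_nonneg_left _ (by positivity)
          apply mul_le_mul_of_nonneg_left _ hpw0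
          rw [hset]
          exact h1.trans (mul_le_mul_of_nonneg_left hP1 (by positivity))
      _ = w ^ k * (B * C * (pw (n + N + 1) k j ^ p * (((2 : ℝ) ^ k * rad k j C') ^ n *
            (B * (1 / 2) ^ P.1 + rad k j C') ^ e))) := by ring
      _ ≤ w ^ k * (B * C * ((2 * C') ^ n * (B + 2 * C') ^ e * ((1 / 2 : ℝ) ^ P.1) ^ e)) := by
          apply mul_le_mul_of_nonneg_left _ (by positivity)
          apply mul_le_mul_of_nonneg_left _ (by positivity)
          exact core (n + N + 1) n k j P.1 p e B C' hp hm he hen hB hC' hk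
      _ = A1 * ((1 / 2 : ℝ) ^ P.1) ^ e * w ^ k := by
          rw [hA1]
          ring
  have hmaps : ∀ Q ∈ F, Q.1 ∈ F.image Prod.fst := fun Q hQ => Finset.mem_image_of_mem _ hQ
  have himg : ∀ k ∈ F.image Prod.fst, P.1 ≤ k := by
    intro k hk
    obtain ⟨Q, hQ, rfl⟩ := Finset.mem_image.1 hk
    exact level_le n hn Q P (Finset.mem_filter.1 hQ).2
  have hsub : F.image Prod.fst ⊆ Finset.Ico P.1 ((F.image Prod.fst).sup id + 1) := by
    intro k hk
    rw [Finset.mem_Ico]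
    exact ⟨himg k hk, Nat.lt_succ_of_le (Finset.le_sup (f := id) hk)⟩
  have hfinal : ((1 / 2 : ℝ) ^ P.1) ^ e * w ^ P.1 ≤ (2 : ℝ) ^ (-((P.1 : ℝ) * n)) := by
    rw [← hwk, one_div, inv_pow, Real.inv_rpow (by positivity), ← Real.rpow_natCast 2 P.1,
      ← Real.rpow_mul (by norm_num), ← Real.rpow_neg (by norm_num), ← Real.rpow_add (by norm_num)]
    apply Real.rpow_le_rpow_of_exponent_le (by norm_num)
    have : (0 : ℝ) ≤ P.1 := Nat.cast_nonneg _
    nlinarith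
  calc ∑ Q ∈ F, g Q = ∑ k ∈ F.image Prod.fst, ∑ Q ∈ F.filter (fun Q => Q.1 = k), g Q :=
        (Finset.sum_fiberwise_of_maps_to hmaps g).symm
    _ ≤ ∑ k ∈ F.image Prod.fst, A1 * ((1 / 2 : ℝ) ^ P.1) ^ e * w ^ k :=
        Finset.sum_le_sum (fun k hk => hlev k (himg k hk))
    _ = A1 * ((1 / 2 : ℝ) ^ P.1) ^ e * ∑ k ∈ F.image Prod.fst, w ^ k := by
        rw [Finset.mul_sum]
    _ ≤ A1 * ((1 / 2 : ℝ) ^ P.1) ^ e * (w ^ P.1 / (1 - w)) := by
        apply mul_le_mul_of_nonneg_left _ (by positivity)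
        exact (Finset.sum_le_sum_of_subset_of_nonneg hsub
          (fun k _ _ => by positivity)).trans (geom_sum_Ico_le_of_lt_one hw0.le hw1)
    _ = A1 / (1 - w) * (((1 / 2 : ℝ) ^ P.1) ^ e * w ^ P.1) := by ring
    _ ≤ A1 / (1 - w) * (2 : ℝ) ^ (-((P.1 : ℝ) * n)) := by
        apply mul_le_mul_of_nonneg_left hfinal
        exact (div_pos hA1p (by linarith)).le

end Pool.Agent.W725.BH
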